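import Pool.Agent.Lib_helper9.FPP.Defs

/-! # Block ML of MP_a5a93b_pr: the reverse kernel and the injectivity lemma -/

set_option autoImplicit false
set_option linter.unusedSectionVars false

open scoped BigOperators

namespace Pool.Agent.Lib_helper9.FPP

section ML
variable {I Lam ι : Type*} [Fintype I] [DecidableEq I] [Fintype Lam] [DecidableEq Lam]

/-- Raise: on `S`, the coordinates equal to `z` are replaced by the proposal. -/
def ml_raise (z : Lam) (S : Finset I) (lam' : I → Lam) (U : I → Option Lam) : I → Lam := fun i =>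
  if i ∈ S ∧ lam' i = z then (U i).getD (lam' i) else lam' i

/-- weight of the proposals -/
def ml_u (w : Lam → ℝ) (q : ℝ) : Option Lam → ℝ
  | none => 1 - q
  | some a => q * w a

/-- one-coordinate reverse kernel -/
def ml_k (z : Lam) (w : Lam → ℝ) (q : ℝ) (S : Finset I) (i : I) (b a : Lam) : ℝ :=
  if i ∈ S ∧ b = z then (if a = z then 1 - q else 0) + q * w a else (if a = b then 1 else 0)

theorem ml_kst (z : Lam) (w : Lam → ℝ) (hw1 : ∑ a, w a = 1) (q : ℝ) (S : Finset I)
    (lam' lam : I → Lam) :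
    ∏ i, ml_k z w q S i (lam' i) (lam i) =
      ∑ U : I → Option Lam, if ml_raise z S lam' U = lam then ∏ i, ml_u w q (U i) else 0 := by
  have h1 : ∀ i, ml_k z w q S i (lam' i) (lam i) = ∑ o : Option Lam, ml_u w q o *
      (if (if i ∈ S ∧ lam' i = z then o.getD (lam' i) else lam' i) = lam i then 1 else 0) := by
    intro i
    rw [Fintype.sum_option]
    unfold ml_k ml_u
    by_cases h : i ∈ S ∧ lam' i = z
    · simp only [if_pos h, Option.getD_none, Option.getD_some]
      rw [h.2]
      congr 1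
      · by_cases hz : lam i = z
        · simp [hz]
        · rw [if_neg hz, if_neg (fun h => hz h.symm)]; simp
      · simp
    · simp only [if_neg h]
      by_cases hb : lam' i = lam i
      · simp [hb, ← Finset.mul_sum, hw1]
      · simp [hb, Ne.symm hb]
  rw [Finset.prod_congr rfl fun i _ => h1 i, Finset.prod_univ_sum, Fintype.piFinset_univ]
  refine Finset.sum_congr rfl fun U _ => ?_
  rw [Finset.prod_mul_distrib]
  by_cases h : ml_raise z S lam' U = lam
  · rw [if_pos h, Finset.prod_eq_one (f := fun i => (if (if i ∈ S ∧ lam' i = z then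
      (U i).getD (lam' i) else lam' i) = lam i then (1 : ℝ) else 0)), mul_one]
    intro i _
    exact if_pos (congrFun h i)
  · rw [if_neg h]
    obtain ⟨i, hi⟩ := Function.ne_iff.mp h
    rw [Finset.prod_eq_zero (f := fun i => (if (if i ∈ S ∧ lam' i = z then
      (U i).getD (lam' i) else lam' i) = lam i then (1 : ℝ) else 0)) (Finset.mem_univ i), mul_zero]
    exact if_neg hi

theorem ml_usum (w : Lam → ℝ) (hw1 : ∑ a, w a = 1) (q : ℝ) :
    ∑ U : I → Option Lam, ∏ i, ml_u w q (U i) = 1 := by
  have h := Finset.prod_univ_sum (fun _ : I => (Finset.univ : Finset (Option Lam)))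
    (fun _ o => ml_u w q o)
  rw [Fintype.piFinset_univ] at h
  rw [← h]
  refine Finset.prod_eq_one fun i _ => ?_
  rw [Fintype.sum_option]
  simp only [ml_u]
  rw [← Finset.mul_sum, hw1]
  ring

theorem ml_inj {z : Lam} (LS : LoopSys I Lam ι z) (lam' : I → Lam) (U : I → Option Lam)
    (S S' : Finset I) (h : LS.tube (LS.G (ml_raise z S lam' U)) = S)
    (h' : LS.tube (LS.G (ml_raise z S' lam' U)) = S') : S = S' := by
  have key : ∀ S S' : Finset I, LS.tube (LS.G (ml_raise z S' lam' U)) = S' →
      LS.c (LS.G (ml_raise z S' lam' U)) (ml_raise z S lam' U) ≤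
        LS.c (LS.G (ml_raise z S' lam' U)) (ml_raise z S' lam' U) := by
    intro S S' h'
    refine LS.mono _ _ _ fun i hi => ?_
    rw [h'] at hi
    unfold ml_raise
    by_cases hz : lam' i = z
    · by_cases hS : i ∈ S
      · left; simp [hS, hi, hz]
      · right; simp [hS, hz]
    · left; simp [hz]
  have h1 := key S S' h'
  have h2 := key S' S h
  have h3 := LS.G_min (ml_raise z S lam' U) (LS.G (ml_raise z S' lam' U))
  have h4 := LS.G_min (ml_raise z S' lam' U) (LS.G (ml_raise z S lam' U))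
  have h5 := LS.G_first (ml_raise z S lam' U) (LS.G (ml_raise z S' lam' U)) (by linarith)
  have h6 := LS.G_first (ml_raise z S' lam' U) (LS.G (ml_raise z S lam' U)) (by linarith)
  have h7 : LS.G (ml_raise z S lam' U) = LS.G (ml_raise z S' lam' U) :=
    LS.ord_inj (le_antisymm h5 h6)
  rw [← h, ← h', h7]

theorem ml_reverse (z : Lam) (w : Lam → ℝ) (hz : 0 < w z) (δ : ℝ) (hδ0 : 0 < δ) (hδ1 : δ < 1)
    (S : Finset I) (lam lam' : I → Lam) :
    Wt w lam * Ker z δ S lam lam' = Wt w lam' * Lw w z δ S lam' *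
      ∏ i, ml_k z w (δ / (w z * (1 - δ) + δ)) S i (lam' i) (lam i) := by
  have hQ : 0 < w z * (1 - δ) + δ := by
    have : 0 < w z * (1 - δ) := mul_pos hz (by linarith)
    linarith
  have hL : Lw w z δ S lam' = ∏ i, if i ∈ S then
      (if lam' i = z then 1 - δ + δ / w z else 1 - δ) else 1 := by
    unfold Lw
    rw [Finset.prod_ite_mem, Finset.univ_inter]
  rw [hL]
  unfold Wt Ker
  rw [← Finset.prod_mul_distrib, ← Finset.prod_mul_distrib, ← Finset.prod_mul_distrib]
  refine Finset.prod_congr rfl fun i _ => ?_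
  unfold ml_k
  by_cases hS : i ∈ S
  · by_cases h : lam' i = z
    · simp only [hS, h, if_true, true_and]
      by_cases ha : lam i = z
      · simp only [ha, if_true]
        field_simp
        ring
      · rw [if_neg (fun h' => ha h'.symm), if_neg ha]
        field_simp
        ring
    · simp only [hS, h, if_true, if_false, and_false]
      by_cases ha : lam' i = lam i
      · rw [if_pos ha, if_pos ha.symm, ha]; ring
      · rw [if_neg ha, if_neg (fun h' => ha h'.symm)]; ring
  · simp only [hS, if_false, false_and]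
    by_cases ha : lam' i = lam i
    · rw [if_pos ha, if_pos ha.symm, ha]; ring
    · rw [if_neg ha, if_neg (fun h' => ha h'.symm)]; ring

/-- FIN-ML. -/
theorem fin_ML_proof {z : Lam} (LS : LoopSys I Lam ι z) (w : Lam → ℝ) (hw : ∀ a, 0 ≤ w a)
    (hw1 : ∑ a, w a = 1) (hz : 0 < w z) (δ : ℝ) (hδ0 : 0 < δ) (hδ1 : δ < 1)
    (J : Finset (Finset I)) (A B : Finset (I → Lam)) (hAJ : ∀ lam ∈ A, LS.tube (LS.G lam) ∈ J)
    (K0 : ℝ) (hK0 : 0 < K0) :
    ∑ lam ∈ A, Wt w lam * ∑ lam' ∈ B, Ker z δ (LS.tube (LS.G lam)) lam lam' ≤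
      K0 * ∑ lam' ∈ B, Wt w lam' +
        ∑ S ∈ J, ∑ lam' : I → Lam, (if K0 < Lw w z δ S lam' then Wt w lam' * Lw w z δ S lam' else 0) := by
  classical
  set q : ℝ := δ / (w z * (1 - δ) + δ) with hq
  have hQ : 0 < w z * (1 - δ) + δ := by
    have : 0 < w z * (1 - δ) := mul_pos hz (by linarith)
    linarith
  have hq0 : 0 ≤ q := by positivity
  have hq1 : q ≤ 1 := by
    rw [hq, div_le_one hQ]
    have : 0 < w z * (1 - δ) := mul_pos hz (by linarith)
    linarith
  have hu : ∀ o : Option Lam, 0 ≤ ml_u w q o := by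
    intro o
    cases o with
    | none => simp only [ml_u]; linarith
    | some a => simp only [ml_u]; exact mul_nonneg hq0 (hw a)
  have hW : ∀ lam : I → Lam, 0 ≤ Wt w lam := fun lam => Finset.prod_nonneg fun i _ => hw _
  have hL : ∀ (S : Finset I) (lam : I → Lam), 0 ≤ Lw w z δ S lam := by
    intro S lam
    refine Finset.prod_nonneg fun i _ => ?_
    split_ifs
    · have : 0 ≤ δ / w z := by positivity
      linarith
    · linarith
  -- the reverse kernel
  set Ks : Finset I → (I → Lam) → (I → Lam) → ℝ := fun S lam' lam =>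
    ∏ i, ml_k z w q S i (lam' i) (lam i) with hKs
  have hKs' : ∀ S lam' lam, Ks S lam' lam =
      ∑ U : I → Option Lam, if ml_raise z S lam' U = lam then ∏ i, ml_u w q (U i) else 0 :=
    fun S lam' lam => ml_kst z w hw1 q S lam' lam
  have hKs0 : ∀ S lam' lam, 0 ≤ Ks S lam' lam := by
    intro S lam' lam
    rw [hKs']
    refine Finset.sum_nonneg fun U _ => ?_
    split_ifs
    · exact Finset.prod_nonneg fun i _ => hu _
    · exact le_refl _
  -- probability that the raised configuration has tube `S`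
  set Ps : Finset I → (I → Lam) → ℝ := fun S lam' =>
    ∑ lam ∈ A.filter (fun lam => LS.tube (LS.G lam) = S), Ks S lam' lam with hPs
  have hPs0 : ∀ S lam', 0 ≤ Ps S lam' := fun S lam' =>
    Finset.sum_nonneg fun lam _ => hKs0 _ _ _
  have hPsle : ∀ S lam', Ps S lam' ≤ ∑ U : I → Option Lam,
      (∏ i, ml_u w q (U i)) * (if LS.tube (LS.G (ml_raise z S lam' U)) = S then 1 else 0) := by
    intro S lam'
    simp only [hPs, hKs']
    rw [Finset.sum_comm]
    refine Finset.sum_le_sum fun U _ => ?_
    have hUn : 0 ≤ ∏ i, ml_u w q (U i) := Finset.prod_nonneg fun i _ => hu _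
    rw [Finset.sum_ite_eq]
    split_ifs with h1 h2 h2
    · simp
    · exact absurd (Finset.mem_filter.mp h1).2 h2
    · simpa using hUn
    · simp
  have hPs1 : ∀ (J' : Finset (Finset I)) (lam' : I → Lam), ∑ S ∈ J', Ps S lam' ≤ 1 := by
    intro J' lam'
    refine (Finset.sum_le_sum fun S _ => hPsle S lam').trans ?_
    rw [Finset.sum_comm]
    have h1 : ∀ U : I → Option Lam, ∑ S ∈ J', (∏ i, ml_u w q (U i)) *
        (if LS.tube (LS.G (ml_raise z S lam' U)) = S then 1 else 0) ≤ ∏ i, ml_u w q (U i) := by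
      intro U
      rw [← Finset.mul_sum]
      have hUn : 0 ≤ ∏ i, ml_u w q (U i) := Finset.prod_nonneg fun i _ => hu _
      refine mul_le_of_le_one_right hUn ?_
      rw [← Finset.sum_filter, Finset.sum_const, nsmul_eq_mul, mul_one]
      have h2 : (J'.filter (fun S => LS.tube (LS.G (ml_raise z S lam' U)) = S)).card ≤ 1 := by
        rw [Finset.card_le_one]
        intro S hS S' hS'
        exact ml_inj LS lam' U S S' (Finset.mem_filter.mp hS).2 (Finset.mem_filter.mp hS').2
      exact_mod_cast h2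
    exact (Finset.sum_le_sum fun U _ => h1 U).trans (le_of_eq (ml_usum w hw1 q))
  -- rewrite the left side
  have hLHS : ∑ lam ∈ A, Wt w lam * ∑ lam' ∈ B, Ker z δ (LS.tube (LS.G lam)) lam lam' =
      ∑ lam' ∈ B, Wt w lam' * ∑ S ∈ J, Lw w z δ S lam' * Ps S lam' := by
    have h1 : ∀ lam ∈ A, Wt w lam * ∑ lam' ∈ B, Ker z δ (LS.tube (LS.G lam)) lam lam' =
        ∑ lam' ∈ B, Wt w lam' * ∑ S ∈ J, (if LS.tube (LS.G lam) = S then
          Lw w z δ S lam' * Ks S lam' lam else 0) := by
      intro lam hlam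
      rw [Finset.mul_sum]
      refine Finset.sum_congr rfl fun lam' _ => ?_
      rw [Finset.sum_ite_eq, if_pos (hAJ lam hlam), ml_reverse z w hz δ hδ0 hδ1]
      ring
    rw [Finset.sum_congr rfl h1, Finset.sum_comm]
    refine Finset.sum_congr rfl fun lam' _ => ?_
    rw [← Finset.mul_sum, Finset.sum_comm]
    congr 1
    refine Finset.sum_congr rfl fun S _ => ?_
    rw [hPs, ← Finset.sum_filter, Finset.mul_sum]
  rw [hLHS]
  have h3 : ∀ lam' : I → Lam, Wt w lam' * ∑ S ∈ J, Lw w z δ S lam' * Ps S lam' ≤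
      K0 * Wt w lam' + ∑ S ∈ J, (if K0 < Lw w z δ S lam' then Wt w lam' * Lw w z δ S lam' else 0) := by
    intro lam'
    have h4 : ∑ S ∈ J, Lw w z δ S lam' * Ps S lam' ≤ K0 * ∑ S ∈ J, Ps S lam' +
        ∑ S ∈ J, (if K0 < Lw w z δ S lam' then Lw w z δ S lam' else 0) := by
      rw [Finset.mul_sum, ← Finset.sum_add_distrib]
      refine Finset.sum_le_sum fun S hS => ?_
      have hP1 : Ps S lam' ≤ 1 := by
        have := hPs1 {S} lam'
        simpa using this
      split_ifs with hK
      · have h5 : Lw w z δ S lam' * Ps S lam' ≤ Lw w z δ S lam' * 1 :=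
          mul_le_mul_of_nonneg_left hP1 (hL _ _)
        have h6 : 0 ≤ K0 * Ps S lam' := mul_nonneg hK0.le (hPs0 _ _)
        linarith
      · push Not at hK
        have h5 : Lw w z δ S lam' * Ps S lam' ≤ K0 * Ps S lam' :=
          mul_le_mul_of_nonneg_right hK (hPs0 _ _)
        linarith
    have h5 : K0 * ∑ S ∈ J, Ps S lam' ≤ K0 := by
      have := mul_le_mul_of_nonneg_left (hPs1 J lam') hK0.le
      linarith
    calc Wt w lam' * ∑ S ∈ J, Lw w z δ S lam' * Ps S lam'
        ≤ Wt w lam' * (K0 + ∑ S ∈ J, (if K0 < Lw w z δ S lam' then Lw w z δ S lam' else 0)) :=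
          mul_le_mul_of_nonneg_left (by linarith) (hW lam')
      _ = _ := by
          rw [mul_add, Finset.mul_sum, mul_comm (Wt w lam') K0]
          congr 1
          refine Finset.sum_congr rfl fun S _ => ?_
          split_ifs
          · rfl
          · rw [mul_zero]
  refine (Finset.sum_le_sum fun lam' _ => h3 lam').trans ?_
  rw [Finset.sum_add_distrib, ← Finset.mul_sum]
  refine add_le_add le_rfl ?_
  rw [Finset.sum_comm (s := J)]
  refine Finset.sum_le_sum_of_subset_of_nonneg (Finset.subset_univ _) fun lam' _ _ => ?_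
  refine Finset.sum_nonneg fun S _ => ?_
  split_ifs
  · exact mul_nonneg (hW _) (hL _ _)
  · exact le_refl _

end ML

end Pool.Agent.Lib_helper9.FPP
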