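import Pool.Agent.Lib_helper9.FPP.Defs

/-! # Block MOM of MP_a5a93b_pr: truncated first moments of the densities -/

set_option autoImplicit false
set_option linter.unusedSectionVars false

open scoped BigOperators

namespace Pool.Agent.Lib_helper9.FPP

section MOM
variable {I Lam ι : Type*} [Fintype I] [DecidableEq I] [Fintype Lam] [DecidableEq Lam]

/-- `exp y ≤ 1 + y + y^2` for `|y| ≤ 1` -/
theorem mom_exp (y : ℝ) (hy : |y| ≤ 1) : Real.exp y ≤ 1 + y + y ^ 2 := by
  have := Real.abs_exp_sub_one_sub_id_le hy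
  have := (abs_le.mp this).2
  linarith

/-- the one-coordinate factor -/
noncomputable def momL (w : Lam → ℝ) (z : Lam) (δ : ℝ) (a : Lam) : ℝ :=
  if a = z then 1 - δ + δ / w z else 1 - δ

/-- one-coordinate moment -/
theorem mom_one (z : Lam) (w : Lam → ℝ) (hw : ∀ a, 0 ≤ w a) (hw1 : ∑ a, w a = 1) (hz : 0 < w z)
    (δ : ℝ) (hδ0 : 0 < δ) (hδ1 : δ ≤ 1) (m : ℕ) (hm : (m : ℝ) * δ ≤ w z) :
    ∑ a, w a * momL w z δ a ^ m ≤ Real.exp (((m : ℝ) * δ / w z) ^ 2) := by
  have hz1 : w z ≤ 1 := by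
    rw [← hw1]
    exact Finset.single_le_sum (fun a _ => hw a) (Finset.mem_univ z)
  have hsplit : ∀ f : Lam → ℝ, ∑ a, f a = f z + ∑ a ∈ Finset.univ.erase z, f a := fun f =>
    (Finset.add_sum_erase _ f (Finset.mem_univ z)).symm
  have hrest : ∑ a ∈ Finset.univ.erase z, w a = 1 - w z := by
    have := hsplit w
    rw [hw1] at this
    linarith
  have hsum : ∑ a, w a * momL w z δ a ^ m =
      w z * (1 - δ + δ / w z) ^ m + (1 - w z) * (1 - δ) ^ m := by
    rw [hsplit, ← hrest, Finset.sum_mul]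
    congr 1
    · simp [momL]
    · refine Finset.sum_congr rfl fun a ha => ?_
      rw [momL, if_neg (Finset.ne_of_mem_erase ha)]
  rw [hsum]
  set x : ℝ := (m : ℝ) * δ / w z with hx
  have hx0 : 0 ≤ x := by positivity
  have hx1 : x ≤ 1 := by rw [hx, div_le_one hz]; exact hm
  have hmδ : (m : ℝ) * δ = x * w z := by rw [hx]; field_simp
  -- first factor
  have h1 : (1 - δ + δ / w z) ^ m ≤ 1 + x * (1 - w z) + (x * (1 - w z)) ^ 2 := by
    have h0 : (0 : ℝ) ≤ 1 - δ + δ / w z := by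
      have : 0 ≤ δ / w z := by positivity
      linarith
    have ha : 1 - δ + δ / w z ≤ Real.exp (δ / w z - δ) := by
      have := Real.add_one_le_exp (δ / w z - δ)
      linarith
    have hb : (1 - δ + δ / w z) ^ m ≤ Real.exp ((m : ℝ) * (δ / w z - δ)) := by
      rw [Real.exp_nat_mul]
      exact pow_le_pow_left₀ h0 ha m
    have hc : (m : ℝ) * (δ / w z - δ) = x * (1 - w z) := by
      have : (m : ℝ) * (δ / w z - δ) = (m : ℝ) * δ / w z - (m : ℝ) * δ := by ring
      rw [this, hmδ, mul_div_assoc, div_self hz.ne']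
      ring
    rw [hc] at hb
    refine hb.trans (mom_exp _ ?_)
    rw [abs_of_nonneg (mul_nonneg hx0 (by linarith))]
    nlinarith
  have h2 : (1 - δ) ^ m ≤ 1 - x * w z + (x * w z) ^ 2 := by
    have ha : 1 - δ ≤ Real.exp (-δ) := by
      have := Real.add_one_le_exp (-δ)
      linarith
    have hb : (1 - δ) ^ m ≤ Real.exp ((m : ℝ) * (-δ)) := by
      rw [Real.exp_nat_mul]
      exact pow_le_pow_left₀ (by linarith) ha m
    have hc : (m : ℝ) * (-δ) = -(x * w z) := by rw [← hmδ]; ring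
    rw [hc] at hb
    refine hb.trans ((mom_exp _ ?_).trans (le_of_eq ?_))
    · rw [abs_neg, abs_of_nonneg (mul_nonneg hx0 hz.le)]
      nlinarith
    · ring
  have h3 : w z * (1 - δ + δ / w z) ^ m + (1 - w z) * (1 - δ) ^ m ≤
      w z * (1 + x * (1 - w z) + (x * (1 - w z)) ^ 2) +
        (1 - w z) * (1 - x * w z + (x * w z) ^ 2) :=
    add_le_add (mul_le_mul_of_nonneg_left h1 hz.le) (mul_le_mul_of_nonneg_left h2 (by linarith))
  refine h3.trans ?_
  have h4 : w z * (1 + x * (1 - w z) + (x * (1 - w z)) ^ 2) +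
        (1 - w z) * (1 - x * w z + (x * w z) ^ 2) = 1 + x ^ 2 * (w z * (1 - w z)) := by ring
  rw [h4]
  have h5 : x ^ 2 * (w z * (1 - w z)) ≤ x ^ 2 := by
    have : w z * (1 - w z) ≤ 1 := by nlinarith
    nlinarith [sq_nonneg x]
  have h6 := Real.add_one_le_exp (x ^ 2)
  linarith

/-- moments of the density -/
theorem mom_all (z : Lam) (w : Lam → ℝ) (hw : ∀ a, 0 ≤ w a) (hw1 : ∑ a, w a = 1) (hz : 0 < w z)
    (δ : ℝ) (hδ0 : 0 < δ) (hδ1 : δ ≤ 1) (m : ℕ) (hm : (m : ℝ) * δ ≤ w z) (S : Finset I) :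
    ∑ lam : I → Lam, Wt w lam * Lw w z δ S lam ^ m ≤
      Real.exp ((S.card : ℝ) * ((m : ℝ) * δ / w z) ^ 2) := by
  have h1 : ∀ lam : I → Lam, Wt w lam * Lw w z δ S lam ^ m =
      ∏ i, w (lam i) * (if i ∈ S then momL w z δ (lam i) ^ m else 1) := by
    intro lam
    rw [Finset.prod_mul_distrib, Finset.prod_ite_mem, Finset.univ_inter, Finset.prod_pow]
    rfl
  rw [Finset.sum_congr rfl fun lam _ => h1 lam]
  have h2 := Finset.prod_univ_sum (fun _ : I => (Finset.univ : Finset Lam))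
    (fun i a => w a * (if i ∈ S then momL w z δ a ^ m else 1))
  rw [Fintype.piFinset_univ] at h2
  rw [← h2]
  have h3 : ∀ i : I, ∑ a, w a * (if i ∈ S then momL w z δ a ^ m else 1) ≤
      if i ∈ S then Real.exp (((m : ℝ) * δ / w z) ^ 2) else 1 := by
    intro i
    split_ifs
    · exact mom_one z w hw hw1 hz δ hδ0 hδ1 m hm
    · simp [hw1]
  have hL : ∀ a, 0 ≤ momL w z δ a := by
    intro a
    unfold momL
    split_ifs
    · have : 0 ≤ δ / w z := by positivity
      linarith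
    · linarith
  refine (Finset.prod_le_prod (fun i _ => Finset.sum_nonneg fun a _ => mul_nonneg (hw a) ?_)
    fun i _ => h3 i).trans ?_
  · split_ifs
    · exact pow_nonneg (hL a) m
    · norm_num
  · rw [Finset.prod_ite_mem, Finset.univ_inter, Finset.prod_const, ← Real.exp_nat_mul]

/-- FIN-MOM. -/
theorem fin_MOM_proof (z : Lam) (w : Lam → ℝ) (hw : ∀ a, 0 ≤ w a)
    (hw1 : ∑ a, w a = 1) (hz : 0 < w z) (δ : ℝ) (hδ0 : 0 < δ)
    (J : Finset (Finset I)) (Smax H : ℝ) (hH1 : 1 ≤ H) (hHS : H ≤ Smax)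
    (hJ : (J.card : ℝ) ≤ Real.exp H) (hS : ∀ S ∈ J, (S.card : ℝ) ≤ Smax)
    (hδ : 16 * δ ^ 2 * Smax * H ≤ (w z) ^ 2) :
    ∑ S ∈ J, ∑ lam' : I → Lam,
      (if Real.exp 10 < Lw w z δ S lam' then Wt w lam' * Lw w z δ S lam' else 0) ≤
        Real.exp (-8) := by
  have hz1 : w z ≤ 1 := by
    rw [← hw1]
    exact Finset.single_le_sum (fun a _ => hw a) (Finset.mem_univ z)
  have hW : ∀ lam : I → Lam, 0 ≤ Wt w lam := fun lam => Finset.prod_nonneg fun i _ => hw _
  -- `4 δ H ≤ w z`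
  have h4 : 4 * δ * H ≤ w z := by
    have h1 : (4 * δ * H) ^ 2 ≤ (w z) ^ 2 := by
      calc (4 * δ * H) ^ 2 = 16 * δ ^ 2 * H * H := by ring
        _ ≤ 16 * δ ^ 2 * Smax * H := by
          have : 0 ≤ 16 * δ ^ 2 := by positivity
          have h2 : 16 * δ ^ 2 * H ≤ 16 * δ ^ 2 * Smax := mul_le_mul_of_nonneg_left hHS this
          exact mul_le_mul_of_nonneg_right h2 (by linarith)
        _ ≤ (w z) ^ 2 := hδ
    exact (abs_le_of_sq_le_sq' h1 hz.le).2
  have hδ1 : δ ≤ 1 := by nlinarith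
  have hL : ∀ (S : Finset I) (lam : I → Lam), 0 ≤ Lw w z δ S lam := by
    intro S lam
    refine Finset.prod_nonneg fun i _ => ?_
    split_ifs
    · have : 0 ≤ δ / w z := by positivity
      linarith
    · linarith
  set p : ℕ := ⌈H⌉₊ with hp
  have hp1 : H ≤ (p : ℝ) := Nat.le_ceil H
  have hp2 : (p : ℝ) < H + 1 := Nat.ceil_lt_add_one (by linarith)
  have hm : ((p + 1 : ℕ) : ℝ) ≤ 3 * H := by push_cast; linarith
  have hmδ : ((p + 1 : ℕ) : ℝ) * δ ≤ w z := by
    have : ((p + 1 : ℕ) : ℝ) * δ ≤ 3 * H * δ := mul_le_mul_of_nonneg_right hm hδ0.le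
    nlinarith
  have hone : ∀ S ∈ J, ∑ lam' : I → Lam,
      (if Real.exp 10 < Lw w z δ S lam' then Wt w lam' * Lw w z δ S lam' else 0) ≤
        Real.exp (-(9 * H)) := by
    intro S hSJ
    have h1 : ∀ lam' : I → Lam,
        (if Real.exp 10 < Lw w z δ S lam' then Wt w lam' * Lw w z δ S lam' else 0) ≤
        Real.exp (-(10 * p)) * (Wt w lam' * Lw w z δ S lam' ^ (p + 1)) := by
      intro lam'
      split_ifs with h
      · have h2 : Real.exp (10 * p) ≤ Lw w z δ S lam' ^ p := by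
          have h3 : Real.exp (10 * p) = Real.exp 10 ^ p := by
            rw [mul_comm, Real.exp_nat_mul]
          rw [h3]
          exact pow_le_pow_left₀ (Real.exp_pos _).le h.le p
        have h3 : 1 ≤ Real.exp (-(10 * p)) * Lw w z δ S lam' ^ p := by
          have h5 : Real.exp (-(10 * p)) * Real.exp (10 * p) = 1 := by rw [← Real.exp_add]; simp
          rw [← h5]
          exact mul_le_mul_of_nonneg_left h2 (Real.exp_pos _).le
        calc Wt w lam' * Lw w z δ S lam' = (Wt w lam' * Lw w z δ S lam') * 1 := by ring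
          _ ≤ (Wt w lam' * Lw w z δ S lam') * (Real.exp (-(10 * p)) * Lw w z δ S lam' ^ p) :=
            mul_le_mul_of_nonneg_left h3 (mul_nonneg (hW _) (hL _ _))
          _ = _ := by rw [pow_succ]; ring
      · have h2 : 0 ≤ Lw w z δ S lam' ^ (p + 1) := pow_nonneg (hL _ _) _
        have h3 := hW lam'
        have h5 := (Real.exp_pos (-(10 * (p : ℝ)))).le
        positivity
    refine (Finset.sum_le_sum fun lam' _ => h1 lam').trans ?_
    rw [← Finset.mul_sum]
    have h2 := mom_all z w hw hw1 hz δ hδ0 hδ1 (p + 1) hmδ S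
    refine (mul_le_mul_of_nonneg_left h2 (Real.exp_pos _).le).trans ?_
    rw [← Real.exp_add]
    refine Real.exp_le_exp.mpr ?_
    have hcard := hS S hSJ
    have h5 : (((p + 1 : ℕ) : ℝ) * δ / w z) ^ 2 ≤ 9 * H ^ 2 * (δ ^ 2 / (w z) ^ 2) := by
      have h6 : (((p + 1 : ℕ) : ℝ) * δ / w z) ^ 2 = ((p + 1 : ℕ) : ℝ) ^ 2 * (δ ^ 2 / (w z) ^ 2) := by
        rw [div_pow, mul_pow, mul_div_assoc]
      rw [h6]
      refine mul_le_mul_of_nonneg_right ?_ (by positivity)
      have h7 : ((p + 1 : ℕ) : ℝ) ^ 2 ≤ (3 * H) ^ 2 := pow_le_pow_left₀ (by positivity) hm 2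
      nlinarith
    have h8 : Smax * (δ ^ 2 / (w z) ^ 2) * H ≤ 1 / 16 := by
      have h9 : Smax * (δ ^ 2 / (w z) ^ 2) * H = (δ ^ 2 * Smax * H) / (w z) ^ 2 := by ring
      rw [h9, div_le_iff₀ (by positivity)]
      linarith
    have h10 : (S.card : ℝ) * (((p + 1 : ℕ) : ℝ) * δ / w z) ^ 2 ≤ H := by
      calc (S.card : ℝ) * (((p + 1 : ℕ) : ℝ) * δ / w z) ^ 2
          ≤ Smax * (9 * H ^ 2 * (δ ^ 2 / (w z) ^ 2)) :=
            mul_le_mul hcard h5 (by positivity) (by linarith)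
        _ = 9 * H * (Smax * (δ ^ 2 / (w z) ^ 2) * H) := by ring
        _ ≤ 9 * H * (1 / 16) := mul_le_mul_of_nonneg_left h8 (by linarith)
        _ ≤ H := by linarith
    nlinarith
  refine (Finset.sum_le_sum hone).trans ?_
  rw [Finset.sum_const, nsmul_eq_mul]
  refine (mul_le_mul_of_nonneg_right hJ (Real.exp_pos _).le).trans ?_
  rw [← Real.exp_add]
  exact Real.exp_le_exp.mpr (by linarith)

end MOM

end Pool.Agent.Lib_helper9.FPP
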